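import Pool.Agent.Helper35.HSF.StB

/-!
# Project HSF: module PIZ (the pinching at the initial time)
-/

set_option autoImplicit false

namespace Helper62.HSF

open Helper35.HSF Helper35.MS Helper35.PI Helper35.PI2 Helper32.CL
open scoped ContDiff Manifold Topology ENNReal BigOperators
open MeasureTheory Set Filter

private theorem real_pin {ρ τ k z₁ z₂ : ℝ} (hρ : 0 < ρ) (h1 : |ρ * z₁| ≤ τ)
    (h2 : |ρ * z₂| ≤ τ) (hk : k < 1) (hk2 : 2 * τ ^ 2 < k * (1 + τ ^ 2)) :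
    (1 - k) * z₁ ^ 2 - z₁ * z₂ < k / ρ ^ 2 := by
  have hρ2 : 0 < ρ ^ 2 := by positivity
  rw [lt_div_iff₀ hρ2]
  have e1 : (ρ * z₁) ^ 2 ≤ τ ^ 2 := by
    rw [← sq_abs (ρ * z₁)]
    exact pow_le_pow_left₀ (abs_nonneg _) h1 2
  have e2 : -((ρ * z₁) * (ρ * z₂)) ≤ τ ^ 2 := by
    have : |(ρ * z₁) * (ρ * z₂)| ≤ τ * τ := by
      rw [abs_mul]
      exact mul_le_mul h1 h2 (abs_nonneg _) ((abs_nonneg _).trans h1)
    have := (abs_le.mp this).1
    nlinarith only [this]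
  have e3 : (1 - k) * (ρ * z₁) ^ 2 ≤ (1 - k) * τ ^ 2 :=
    mul_le_mul_of_nonneg_left e1 (by linarith only [hk])
  nlinarith only [e2, e3, hk2]

private theorem rho_hn {a τ : ℝ} (h0 : 0 < τ) (h1 : τ < 1) (h : |a| < τ) :
    -(1 / τ) < a ∧ a < τ := by
  have h2 := abs_lt.mp h
  refine ⟨?_, h2.2⟩
  have : τ < 1 / τ := by
    rw [lt_div_iff₀ h0]
    nlinarith only [h0, h1]
  linarith only [this, h2.1]

/-- PIZ. The pinching at the initial time. -/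
theorem hPIZ (hBLI : StBLI) (hNEG : StNEG) : StPIZ := by
  intro n hn2 M _ _ _ _ _ _ ρ t F ν hH hr τ h0 h1 hq
  obtain ⟨ν', hν'⟩ : ∃ ν' : M → ℝ → EE (n + 2), ν' = fun q t => -ν q t := ⟨_, rfl⟩
  obtain ⟨-, hN2, hN3⟩ := hNEG n M F ν ν' hν'
  have hH' : Hyp n ρ t F ν' := hN2 ρ t hH
  have hq' : ∀ q, ∀ c : Fin n → ℝ, gn F q t c = 1 → |ρ * hn F ν' q t c| < τ := by
    intro q c hc
    rw [(hN3 q t).2.2 c, mul_neg, abs_neg]
    exact hq q c hc
  obtain ⟨hA, hI⟩ := hBLI n hn2 M ρ t F ν hH τ h0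
  obtain ⟨hA', -⟩ := hBLI n hn2 M ρ t F ν' hH' τ h0
  have hB := hA fun q c hc => rho_hn h0 h1 (hq q c hc)
  have hB' := hA' fun q c hc => rho_hn h0 h1 (hq' q c hc)
  refine ⟨hI h1.le hq, ?_⟩
  have hρ := hH.ρ0
  have hz : ∀ x, ∀ z ∈ ZS n F ν x t, |ρ * z| ≤ τ := by
    intro x z hz
    rcases hz with ⟨y, hy, rfl⟩ | ⟨c, hc, rfl⟩
    · have hd : 0 < ‖F y t - F x t‖ ^ 2 := by
        have : 0 < ‖F y t - F x t‖ := norm_pos_iff.mpr (sub_ne_zero.mpr hy)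
        positivity
      have e1 := hB x y
      have e2 := hB' x y
      rw [hν'] at e2
      simp only [inner_neg_right] at e2
      unfold zch
      have e3 : ρ * (2 * inner ℝ (F y t - F x t) (ν x t) / ‖F y t - F x t‖ ^ 2) =
          (2 * ρ * inner ℝ (F y t - F x t) (ν x t)) / ‖F y t - F x t‖ ^ 2 := by ring
      rw [e3, abs_div, abs_of_pos hd, div_le_iff₀ hd, abs_le]
      constructor
      · linarith only [e2]
      · exact e1
    · exact (hq x c hc).le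
  have hτ2 : 0 < 1 + τ ^ 2 := by positivity
  obtain ⟨r, hr1⟩ : ∃ r : ℝ, r = 2 * τ ^ 2 / (1 + τ ^ 2) := ⟨_, rfl⟩
  have hτ4 : 2 * τ ^ 2 = r * (1 + τ ^ 2) := by
    rw [hr1]
    field_simp
  have hτ1 : r < 1 := by
    rw [hr1, div_lt_one hτ2]
    nlinarith only [h0, h1]
  have hτ3 : 0 < r := by
    rw [hr1]
    positivity
  refine ⟨(1 + r) / 2, by linarith only [hτ3], by linarith only [hτ1], ?_⟩
  intro x z₁ hz₁ z₂ hz₂
  rw [hr]
  refine real_pin hρ (hz x z₁ hz₁) (hz x z₂ hz₂) (by linarith only [hτ1]) ?_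
  rw [hτ4]
  exact mul_lt_mul_of_pos_right (by linarith only [hτ1]) hτ2

end Helper62.HSF
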